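import Pool.Agent.Lib.MP_2eac29_nt.Final

/-!
Q2: the three congruences modulo `p^2` for `p = 3 x^2 + 5 y^2`.
-/

namespace Pool.Agent.Results.MP_2eac29_nt.QuestionTwo

open Pool.Agent.Lib.MP_2eac29_nt

theorem result (p : ℕ) (hp : p.Prime) (h5 : 5 < p) (_h15 : p % 15 = 2 ∨ p % 15 = 8) (x y : ℤ)
    (hxy : (p : ℤ) = 3 * x ^ 2 + 5 * y ^ 2) (hy : y % 3 = 1) :
    (p : ℤ) ^ 2 ∣ ((∑ k ∈ Finset.range p, aSeq k * (Nat.fib k : ℚ)) -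
      ((p : ℚ) / (5 * (y : ℚ)) - 4 * (y : ℚ))).num ∧
    (p : ℤ) ^ 2 ∣ ((∑ k ∈ Finset.range p, (k : ℚ) * aSeq k * (Nat.fib k : ℚ)) -
      4 / 3 * (y : ℚ)).num ∧
    (p : ℤ) ^ 2 ∣ ((∑ k ∈ Finset.range p, (k : ℚ) * aSeq k * (lucas k : ℚ)) -
      4 / 3 * (y : ℚ)).num := by
  have : Fact p.Prime := ⟨hp⟩
  obtain ⟨c, μ, hμ⟩ := exists_ctx p h5
  have := c.charZero
  exact q2_both c h5 hμ hxy hy

end Pool.Agent.Results.MP_2eac29_nt.QuestionTwo
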